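import Mathlib
import Pool.Agent.Helper59.HC8

set_option autoImplicit false

/-!
The asymptotic formula for partition functions with difference conditions, for all admissible
data of the problem file.
-/

namespace Pool.Agent.Results.MP_af6696_nt.Asymptotics

open Filter Topology

/-- The gap `b_j` attached to a part `e`, where `j` in `{1, ..., M}` and `j ≡ e (mod M)`. -/
def gap (M : ℕ) (b : ℕ → ℕ) (e : ℕ) : ℕ := b (if e % M = 0 then M else e % M)

/-- The representations `n = e_1 + ... + e_t`, given as lists `[e_1, ..., e_t]` of positive integers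
with `e_1 ≥ e_2 ≥ ... ≥ e_t`, no part in `C`, and `e_i - e_{i+1} ≥ b_j` with
`j ≡ e_{i+f} (mod M)` (positions in the list are counted from `0`). -/
def Reps (f M : ℕ) (b : ℕ → ℕ) (C : Set ℕ) (n : ℕ) : Set (List ℕ) :=
  {l | l.sum = n ∧ (∀ e ∈ l, 1 ≤ e ∧ e ∉ C) ∧
    ∀ i, i + 1 < l.length → l.getD (i+1) 0 ≤ l.getD i 0 ∧
      gap M b (l.getD (i+f) 0) ≤ l.getD i 0 - l.getD (i+1) 0}

/-- The counting function `B_f(b_1, ..., b_M; M; C; n)`. -/
noncomputable def B (f M : ℕ) (b : ℕ → ℕ) (C : Set ℕ) (n : ℕ) : ℕ := (Reps f M b C n).ncard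

/-- `A(a_1, ..., a_s; M; n)`: the number of partitions of `n` into pairwise different positive
parts, each congruent modulo `M` to an element of `as = {a_1, ..., a_s}`. -/
noncomputable def A (as : Set ℕ) (M n : ℕ) : ℕ :=
  {P : Finset ℕ | ∑ e ∈ P, e = n ∧ ∀ e ∈ P, 1 ≤ e ∧ ∃ a ∈ as, e ≡ a [MOD M]}.ncard

/-- Admissible data: `M ≥ 1`, `f ∈ {0,1}`, positive integers `b_1, ..., b_M`, and
(i) `C` a finite set of positive integers, or
(ii) `f = 0`, `a_j = M - 2^(j-1)` for `1 ≤ j ≤ s` with `2^(s-1) < M`, and `C` is the set of all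
`m ≥ 1` with `A(a_1, ..., a_s; M; m) = 0`. -/
def Admissible (f M : ℕ) (b : ℕ → ℕ) (C : Set ℕ) : Prop :=
  1 ≤ M ∧ (f = 0 ∨ f = 1) ∧ (∀ j, 1 ≤ j → j ≤ M → 1 ≤ b j) ∧
    ((C.Finite ∧ ∀ x ∈ C, 1 ≤ x) ∨
      (f = 0 ∧ ∃ s, 1 ≤ s ∧ 2^(s-1) < M ∧
        C = {m | 1 ≤ m ∧ A {a | ∃ j, 1 ≤ j ∧ j ≤ s ∧ a = M - 2^(j-1)} M m = 0}))

/-- relation between two parts, the second one smaller -/
def ok (f M : ℕ) (b : ℕ → ℕ) (a c : ℕ) : Prop :=
  gap M b (if f = 0 then c else a) ≤ c - a

lemma gap_pos {M : ℕ} {b : ℕ → ℕ} (hM : 1 ≤ M) (hb : ∀ j, 1 ≤ j → j ≤ M → 1 ≤ b j) (e : ℕ) :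
    1 ≤ gap M b e := by
  unfold gap
  split_ifs with h
  · exact hb M hM le_rfl
  · exact hb _ (Nat.one_le_iff_ne_zero.mpr h) (Nat.mod_lt _ hM).le

lemma gap_per (M : ℕ) (b : ℕ → ℕ) (e : ℕ) : gap M b (e + M) = gap M b e := by
  unfold gap
  rw [Nat.add_mod_right]

lemma ok_per (f M : ℕ) (b : ℕ → ℕ) : Helper59.HC.Per (ok f M b) M := by
  intro a m
  unfold ok
  have e : m + M - (a + M) = m - a := by omega
  rw [e]
  split_ifs
  · rw [gap_per]
  · rw [gap_per]

lemma ok_range {f M : ℕ} {b : ℕ → ℕ} (hM : 1 ≤ M) (hb : ∀ j, 1 ≤ j → j ≤ M → 1 ≤ b j) :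
    ∃ D, 1 ≤ D ∧ Helper59.HC.Range (ok f M b) D := by
  refine ⟨(Finset.Icc 1 M).sup b, ?_, ?_⟩
  · exact (hb M hM le_rfl).trans (Finset.le_sup (f := b) (Finset.mem_Icc.mpr ⟨hM, le_rfl⟩))
  · intro a m h
    unfold ok
    have h1 : ∀ e, gap M b e ≤ (Finset.Icc 1 M).sup b := by
      intro e
      unfold gap
      apply Finset.le_sup
      rw [Finset.mem_Icc]
      split_ifs with h
      · exact ⟨hM, le_rfl⟩
      · exact ⟨Nat.one_le_iff_ne_zero.mpr h, (Nat.mod_lt _ hM).le⟩
    have := h1 (if f = 0 then m else a)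
    omega

lemma ok_lt {f M : ℕ} {b : ℕ → ℕ} (hM : 1 ≤ M) (hb : ∀ j, 1 ≤ j → j ≤ M → 1 ≤ b j) {a c : ℕ}
    (h : ok f M b a c) : a < c := by
  unfold ok at h
  have := gap_pos hM hb (if f = 0 then c else a)
  omega

lemma ok_trans {f M : ℕ} {b : ℕ → ℕ} (hM : 1 ≤ M) (hb : ∀ j, 1 ≤ j → j ≤ M → 1 ≤ b j) {a c d : ℕ}
    (h1 : ok f M b a c) (h2 : ok f M b c d) : ok f M b a d := by
  have l1 := ok_lt hM hb h1
  have l2 := ok_lt hM hb h2
  unfold ok at *
  split_ifs at * <;> omega

/-- the list condition as a pairwise condition -/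
lemma mem_Reps {f M : ℕ} {b : ℕ → ℕ} {C : Set ℕ} (hM : 1 ≤ M) (hf : f = 0 ∨ f = 1)
    (hb : ∀ j, 1 ≤ j → j ≤ M → 1 ≤ b j) (n : ℕ) (l : List ℕ) :
    l ∈ Reps f M b C n ↔ l.sum = n ∧ (∀ e ∈ l, 1 ≤ e ∧ e ∉ C) ∧
      l.Pairwise (fun x y => ok f M b y x) := by
  have htr : IsTrans ℕ (fun x y => ok f M b y x) := ⟨fun x y z h1 h2 => ok_trans hM hb h2 h1⟩
  unfold Reps
  simp only [Set.mem_ofPred_eq]
  rw [← List.isChain_iff_pairwise, List.isChain_iff_getElem]
  apply and_congr_right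
  intro _
  apply and_congr_right
  intro _
  constructor
  · intro h i hi
    obtain ⟨h1, h2⟩ := h i hi
    have e0 : l.getD i 0 = l[i] := List.getD_eq_getElem _ _ (by omega)
    have e1 : l.getD (i+1) 0 = l[i+1] := List.getD_eq_getElem _ _ hi
    unfold ok
    rcases hf with rfl | rfl
    · rw [if_pos rfl]
      rw [add_zero, e0, e1] at h2
      exact h2
    · rw [if_neg one_ne_zero]
      rw [e0, e1] at h2
      exact h2
  · intro h i hi
    have h1 := h i hi
    have hlt := ok_lt hM hb h1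
    have e0 : l.getD i 0 = l[i] := List.getD_eq_getElem _ _ (by omega)
    have e1 : l.getD (i+1) 0 = l[i+1] := List.getD_eq_getElem _ _ hi
    unfold ok at h1
    rcases hf with rfl | rfl
    · rw [if_pos rfl] at h1
      rw [add_zero, e0, e1]
      exact ⟨hlt.le, h1⟩
    · rw [if_neg one_ne_zero] at h1
      rw [e0, e1]
      exact ⟨hlt.le, h1⟩

open Classical in
/-- the bridge to the counting function of admissible sets -/
lemma B_eq {f M : ℕ} {b : ℕ → ℕ} {C : Set ℕ} (hM : 1 ≤ M) (hf : f = 0 ∨ f = 1)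
    (hb : ∀ j, 1 ≤ j → j ≤ M → 1 ≤ b j) (hC : C.Finite) (n : ℕ) :
    B f M b C n = Helper59.HC.Bn (ok f M b) (insert 0 hC.toFinset) n := by
  unfold B
  set T := (Helper59.HC.AS (ok f M b) (insert 0 hC.toFinset) (n+1)).filter
    (fun S => ∑ i ∈ S, i = n) with hT
  have hcard : Helper59.HC.Bn (ok f M b) (insert 0 hC.toFinset) n = T.card := rfl
  rw [hcard, ← Set.ncard_coe_finset]
  have hgt : ∀ l : List ℕ, l.Pairwise (fun x y => ok f M b y x) → l.Pairwise (fun x y => y < x) :=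
    fun l h => h.imp (fun h => ok_lt hM hb h)
  have hnd : ∀ l : List ℕ, l.Pairwise (fun x y => ok f M b y x) → l.Nodup := fun l h =>
    (hgt l h).imp (fun h => (Nat.ne_of_lt h).symm)
  -- injectivity
  have hinj : Set.InjOn (fun l : List ℕ => l.toFinset) (Reps f M b C n) := by
    intro l1 h1 l2 h2 h
    rw [mem_Reps hM hf hb] at h1 h2
    have p1 := h1.2.2
    have p2 := h2.2.2
    have hperm : l1.Perm l2 := (List.perm_ext_iff_of_nodup (hnd _ p1) (hnd _ p2)).mpr (fun a => by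
      have := congrArg (fun s : Finset ℕ => a ∈ s) h
      simpa using this)
    exact hperm.eq_of_pairwise (fun a b _ _ hab hba => by
      exact absurd (lt_trans (ok_lt hM hb hab) (ok_lt hM hb hba)) (lt_irrefl _)) p1 p2
  have himg : (fun l : List ℕ => l.toFinset) '' (Reps f M b C n) = (T : Set (Finset ℕ)) := by
    ext S
    simp only [Set.mem_image, Finset.mem_coe]
    rw [hT, Finset.mem_filter, Helper59.HC.mem_AS]
    constructor
    · rintro ⟨l, hl, rfl⟩
      rw [mem_Reps hM hf hb] at hl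
      obtain ⟨h1, h2, h3⟩ := hl
      have hsum : ∑ i ∈ l.toFinset, i = n := by
        rw [← h1]
        have := List.sum_toFinset (fun i => i) (hnd l h3)
        simpa using this
      refine ⟨⟨⟨?_, ?_⟩, ?_⟩, hsum⟩
      · intro i hi
        rw [Finset.mem_range]
        have : i ≤ ∑ j ∈ l.toFinset, j :=
          Finset.single_le_sum (f := fun j => j) (fun _ _ => Nat.zero_le _) hi
        omega
      · intro a ha c hc hac
        rw [List.mem_toFinset] at ha hc
        have hsym : ∀ x ∈ l, ∀ y ∈ l, x ≠ y → (ok f M b y x ∨ ok f M b x y) := by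
          intro x hx y hy hxy
          have hsymm : l.Pairwise (fun x y => ok f M b y x ∨ ok f M b x y) :=
            h3.imp (fun h => Or.inl h)
          have hs : Std.Symm (fun x y => ok f M b y x ∨ ok f M b x y) := ⟨fun _ _ h => h.symm⟩
          exact hsymm.forall hx hy hxy
        rcases hsym a ha c hc hac.ne with h | h
        · exact absurd (ok_lt hM hb h) (by omega)
        · exact h
      · intro i hi
        rw [List.mem_toFinset] at hi
        rw [Finset.mem_insert, not_or]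
        have := h2 i hi
        refine ⟨by omega, ?_⟩
        rw [Set.Finite.mem_toFinset]
        exact this.2
    · rintro ⟨⟨⟨h1, h2⟩, h3⟩, h4⟩
      refine ⟨S.sort (fun a b => b ≤ a), ?_, Finset.sort_toFinset S _⟩
      rw [mem_Reps hM hf hb]
      refine ⟨?_, ?_, ?_⟩
      · have h5 := List.sum_toFinset (fun i => i) (Finset.sort_nodup S (fun a b => b ≤ a))
        rw [Finset.sort_toFinset] at h5
        rw [h4] at h5
        simpa using h5.symm
      · intro e he
        rw [Finset.mem_sort] at he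
        have := h3 e he
        rw [Finset.mem_insert, not_or, Set.Finite.mem_toFinset] at this
        exact ⟨Nat.one_le_iff_ne_zero.mpr this.1, this.2⟩
      · have h5 := Finset.pairwise_sort S (fun a b => b ≤ a)
        have h6 := Finset.sort_nodup S (fun a b => b ≤ a)
        have h7 : (S.sort (fun a b => b ≤ a)).Pairwise (fun x y => y < x) :=
          (h5.and h6).imp (fun h => lt_of_le_of_ne h.1 (Ne.symm h.2))
        refine List.Pairwise.imp_of_mem ?_ h7
        intro x y hx hy hxy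
        rw [Finset.mem_sort] at hx hy
        exact h2 y hy x hx hxy
  rw [← himg, hinj.ncard_image]

/-- in case (ii) the set `C` is finite -/
lemma finite_case_ii {M s : ℕ} (hs : 1 ≤ s) (hM : 2^(s-1) < M) :
    {m | 1 ≤ m ∧ A {a | ∃ j, 1 ≤ j ∧ j ≤ s ∧ a = M - 2^(j-1)} M m = 0}.Finite := by
  have hM2 : 2 ≤ M := by
    have : 1 ≤ 2^(s-1) := Nat.one_le_two_pow
    omega
  apply (Set.finite_Iio (M*(M*M) + M*M)).subset
  rintro m ⟨hm1, hm⟩
  by_contra hcon
  rw [Set.mem_Iio, not_lt] at hcon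
  unfold A at hm
  set P0 := {P : Finset ℕ | ∑ e ∈ P, e = m ∧ ∀ e ∈ P, 1 ≤ e ∧
    ∃ a ∈ {a | ∃ j, 1 ≤ j ∧ j ≤ s ∧ a = M - 2^(j-1)}, e ≡ a [MOD M]} with hP0
  have hfin : P0.Finite := by
    apply ((Finset.range (m+1)).powerset.finite_toSet).subset
    intro P hP
    rw [Finset.mem_coe, Finset.mem_powerset]
    intro i hi
    rw [Finset.mem_range]
    have : i ≤ ∑ j ∈ P, j := Finset.single_le_sum (f := fun j => j) (fun _ _ => Nat.zero_le _) hi
    have h2 := hP.1
    omega
  rw [Set.ncard_eq_zero hfin] at hm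
  -- construct an element
  obtain ⟨k, hk1, hkM, hdvd⟩ : ∃ k, 1 ≤ k ∧ k ≤ M ∧ M ∣ m + k := by
    refine ⟨M - m % M, ?_, by omega, ?_⟩
    · have := Nat.mod_lt m (by omega : 0 < M); omega
    · have h1 := Nat.mod_lt m (by omega : 0 < M)
      have h2 := Nat.div_add_mod m M
      refine ⟨m / M + 1, ?_⟩
      have : M * (m / M + 1) = M * (m/M) + M := by ring
      omega
  set Q := (Finset.range (k-1)).image (fun j => (j+1)*M - 1) with hQ
  have hinj : Set.InjOn (fun j => (j+1)*M - 1) (Finset.range (k-1) : Set ℕ) := by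
    intro i _ j _ h
    simp only at h
    have h1 : 1 ≤ (i+1)*M := Nat.one_le_iff_ne_zero.mpr (by positivity)
    have h2 : 1 ≤ (j+1)*M := Nat.one_le_iff_ne_zero.mpr (by positivity)
    have h3 : (i+1)*M = (j+1)*M := by omega
    have h4 := Nat.eq_of_mul_eq_mul_right (by omega : 0 < M) h3
    omega
  have hQsum : ∑ e ∈ Q, e = ∑ j ∈ Finset.range (k-1), ((j+1)*M - 1) := by
    rw [hQ, Finset.sum_image hinj]
  have hQsum2 : ∑ e ∈ Q, e + (k - 1) = M * ∑ j ∈ Finset.range (k-1), (j+1) := by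
    rw [hQsum, Finset.mul_sum]
    generalize k - 1 = K
    induction K with
    | zero => simp
    | succ K ih =>
      rw [Finset.sum_range_succ, Finset.sum_range_succ, ← ih]
      have h1 : 1 ≤ (K+1)*M := Nat.one_le_iff_ne_zero.mpr (by positivity)
      have h2 : M * (K+1) = (K+1)*M := mul_comm _ _
      omega
  have hsumle : ∑ j ∈ Finset.range (k-1), (j+1) ≤ M * M := by
    calc ∑ j ∈ Finset.range (k-1), (j+1) ≤ ∑ j ∈ Finset.range (k-1), M := by
          apply Finset.sum_le_sum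
          intro j hj
          have := Finset.mem_range.mp hj
          omega
      _ = (k-1) * M := by simp
      _ ≤ M * M := Nat.mul_le_mul_right M (by omega)
  have hle : ∑ e ∈ Q, e ≤ M*(M*M) := by
    have h1 : M * ∑ j ∈ Finset.range (k-1), (j+1) ≤ M * (M*M) := Nat.mul_le_mul_left M hsumle
    omega
  set last := m - ∑ e ∈ Q, e with hlast
  have hlastge : M * M ≤ last := by omega
  have hnotmem : last ∉ Q := by
    intro h
    rw [hQ, Finset.mem_image] at h
    obtain ⟨j, hj, hje⟩ := h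
    have hj' := Finset.mem_range.mp hj
    have h1 : (j+1)*M ≤ M*M := Nat.mul_le_mul_right M (by omega)
    have h2 : 1 ≤ (j+1)*M := Nat.one_le_iff_ne_zero.mpr (by positivity)
    omega
  have hmod : ∀ e, M ∣ e + 1 → e ≡ M - 1 [MOD M] := by
    intro e he
    apply Nat.ModEq.add_right_cancel' 1
    have h1 : M - 1 + 1 = M := by omega
    rw [h1]
    exact ((Nat.modEq_zero_iff_dvd.mpr he).trans (Nat.modEq_zero_iff_dvd.mpr (dvd_refl M)).symm)
  have hamem : M - 1 ∈ {a | ∃ j, 1 ≤ j ∧ j ≤ s ∧ a = M - 2^(j-1)} := ⟨1, le_rfl, hs, by simp⟩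
  have hlastdvd : M ∣ last + 1 := by
    have h1 : last + 1 + M * ∑ j ∈ Finset.range (k-1), (j+1) = m + k := by
      rw [← hQsum2]; omega
    have h2 : M ∣ last + 1 + M * ∑ j ∈ Finset.range (k-1), (j+1) := by rw [h1]; exact hdvd
    exact (Nat.dvd_add_left (Dvd.intro _ rfl)).mp h2
  have hmem : insert last Q ∈ P0 := by
    refine ⟨?_, ?_⟩
    · rw [Finset.sum_insert hnotmem]; omega
    · intro e he
      rcases Finset.mem_insert.mp he with rfl | he
      · refine ⟨?_, M - 1, hamem, hmod _ hlastdvd⟩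
        have : 1 ≤ M * M := Nat.one_le_iff_ne_zero.mpr (by positivity)
        omega
      · rw [hQ, Finset.mem_image] at he
        obtain ⟨j, _, rfl⟩ := he
        have h2 : 2 ≤ (j+1)*M := by nlinarith
        refine ⟨by omega, M - 1, hamem, hmod _ ?_⟩
        have : (j+1)*M - 1 + 1 = (j+1)*M := by omega
        rw [this]
        exact Dvd.intro_left _ rfl
  rw [hm] at hmem
  exact hmem

/-- For all admissible data the counting function satisfies
`B_f(n) = (α + o(1)) n^(-3/4) exp(β √n)` with some real `α > 0` and `β`. -/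
theorem result (f M : ℕ) (b : ℕ → ℕ) (C : Set ℕ) (h : Admissible f M b C) :
    ∃ α β : ℝ, 0 < α ∧ Tendsto (fun n : ℕ => (B f M b C n : ℝ) /
      ((n:ℝ) ^ (-(3/4) : ℝ) * Real.exp (β * Real.sqrt n))) atTop (𝓝 α) := by
  obtain ⟨hM, hf, hb, hC⟩ := h
  have hfin : C.Finite := by
    rcases hC with hC | ⟨_, s, hs, hsM, rfl⟩
    · exact hC.1
    · exact finite_case_ii hs hsM
  obtain ⟨D, hD1, hD⟩ := ok_range (f := f) hM hb
  classical
  obtain ⟨α, β, hα, hlim⟩ := Helper59.HC.Bn_asymp (ok f M b) (insert 0 hfin.toFinset) hD hD1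
    (ok_per f M b) hM
  refine ⟨α, β, hα, ?_⟩
  have e : ∀ n, B f M b C n = Helper59.HC.Bn (ok f M b) (insert 0 hfin.toFinset) n := by
    intro n
    have := B_eq (C := C) hM hf hb hfin n
    convert this
  simp only [e]
  exact hlim

end Pool.Agent.Results.MP_af6696_nt.Asymptotics
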